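import Pool.Agent.R385.MC.Main

/-!
# The local criterion for the argument
-/

set_option autoImplicit false

namespace Pool.Agent.R385.PH

open Complex Filter Topology MeasureTheory Metric Finset Pool.Agent.W350.Edge Pool.Agent.R385.MC

/-- The lower half of a disc. -/
def lo (r : ℝ) : Set ℂ := ball (0 : ℂ) r ∩ {z : ℂ | z.im < 0}

lemma lo_open (r : ℝ) : IsOpen (lo r) :=
  isOpen_ball.inter (isOpen_lt continuous_im continuous_const)

lemma lo_preconnected (r : ℝ) : IsPreconnected (lo r) := by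
  have : Convex ℝ (lo r) := (convex_ball _ _).inter (convex_halfSpace_im_lt _)
  exact this.isPreconnected

/-- A continuous logarithm of the constant function `1` is constant. -/
lemma log_const {h : ℂ → ℂ} {r : ℝ} (hr : 0 < r) (hd : DifferentiableOn ℂ h (lo r))
    (he : ∀ z ∈ lo r, Complex.exp (h z) = 1) :
    ∃ k : ℤ, ∀ z ∈ lo r, h z = k * (2 * Real.pi * I) := by
  have hmem : (-(r / 2 : ℝ) * I : ℂ) ∈ lo r := by
    refine ⟨?_, ?_⟩
    · rw [mem_ball, dist_zero_right, norm_mul, Complex.norm_I, mul_one, norm_neg,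
        Complex.norm_real, Real.norm_of_nonneg (by positivity)]
      linarith
    · show (-(r / 2 : ℝ) * I : ℂ).im < 0
      have : (-(r / 2 : ℝ) * I : ℂ) = ((-(r / 2) : ℝ) : ℂ) * I := by push_cast; ring
      rw [this, Complex.im_ofReal_mul, Complex.I_im]
      linarith
  have hderiv : (lo r).EqOn (deriv h) 0 := by
    intro z hz
    have h1 : HasDerivAt h (deriv h z) z :=
      (hd.differentiableAt ((lo_open r).mem_nhds hz)).hasDerivAt
    have h2 := h1.cexp
    have h3 : (fun z => Complex.exp (h z)) =ᶠ[𝓝 z] fun _ => 1 := by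
      filter_upwards [(lo_open r).mem_nhds hz] with y hy using he y hy
    have h4 : HasDerivAt (fun z => Complex.exp (h z)) 0 z :=
      (hasDerivAt_const z (1 : ℂ)).congr_of_eventuallyEq h3
    have h5 := h2.unique h4
    rcases mul_eq_zero.1 h5 with h6 | h6
    · exact absurd h6 (Complex.exp_ne_zero _)
    · exact h6
  have h1 := he _ hmem
  rw [Complex.exp_eq_one_iff] at h1
  obtain ⟨k, hk⟩ := h1
  refine ⟨k, fun z hz => ?_⟩
  rw [← hk]
  exact (lo_open r).is_const_of_deriv_eq_zero (lo_preconnected r) hd hderiv hz hmem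

/-- The function `Log (iζ)` is holomorphic in the lower half-plane. -/
lemma log_diff {z : ℂ} (hz : z.im < 0) : DifferentiableAt ℂ (fun z => Complex.log (I * z)) z := by
  refine DifferentiableAt.clog (by fun_prop) (Or.inl ?_)
  simp only [Complex.mul_re, Complex.I_re, zero_mul, Complex.I_im, one_mul, zero_sub]
  linarith

lemma exp_log_I {z : ℂ} (hz : z ≠ 0) : Complex.exp (Complex.log (I * z)) = I * z :=
  Complex.exp_log (mul_ne_zero I_ne_zero hz)

lemma im_neg_ne {z : ℂ} (hz : z.im < 0) : z ≠ 0 := by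
  intro h
  rw [h] at hz
  simp at hz

/-- The boundary values of the argument of `iζ`. -/
lemma log_bdry {τ : ℝ} (hτ : τ ≠ 0) :
    Tendsto (fun ε : ℝ => (Complex.log (I * (τ - I * ε))).im) (𝓝[>] 0)
      (𝓝 (Real.pi / 2 * Real.sign τ)) := by
  have h1 : ContinuousAt (fun z : ℂ => (Complex.log (I * z)).im) τ := by
    refine Complex.continuous_im.continuousAt.comp (ContinuousAt.clog (by fun_prop) (Or.inr ?_))
    simpa using hτ
  have h2 := h1.tendsto.comp (tendsto_below τ)
  have h3 : (Complex.log (I * τ)).im = Real.pi / 2 * Real.sign τ := by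
    rw [Complex.log_im]
    rcases lt_or_gt_of_ne hτ with h | h
    · rw [Real.sign_of_neg h]
      have : I * (τ : ℂ) = ((-τ : ℝ) : ℂ) * (-I) := by push_cast; ring
      rw [this, Complex.arg_real_mul _ (by linarith), Complex.arg_neg_I]
      ring
    · rw [Real.sign_of_pos h]
      rw [mul_comm, Complex.arg_real_mul _ h, Complex.arg_I]
      ring
  rw [← h3]
  exact h2

/-- The prime sum with a logarithmic singularity. -/
lemma piece_log : ∃ (b : ℕ → ℂ) (y : ℂ → ℂ), (∀ p, ‖b p‖ ≤ 1) ∧ AnalyticAt ℂ y 0 ∧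
    ∀ᶠ ζ : ℂ in 𝓝 0, ζ.im < 0 → gg b ζ = y ζ - Complex.log (I * ζ) := by
  obtain ⟨b, Y, hb, hY, hY0, hev⟩ := zeta_piece 0
  simp only [Complex.ofReal_zero, sub_zero] at hY hY0 hev
  have hIY : AnalyticAt ℂ (fun z => I * Y z) 0 := analyticAt_const.mul hY
  obtain ⟨y, hy, hye⟩ := exists_log hIY (mul_ne_zero I_ne_zero hY0)
  obtain ⟨r, hr, hall⟩ := Metric.eventually_nhds_iff_ball.1
    (hev.and (hye.and hy.eventually_analyticAt))
  have hd : DifferentiableOn ℂ (fun z => gg b z + Complex.log (I * z) - y z) (lo r) := by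
    intro z hz
    have h1 : DifferentiableAt ℂ (gg b) z :=
      (gg_diff zero_le_one hb).differentiableAt
        ((isOpen_lt continuous_im continuous_const).mem_nhds hz.2)
    exact ((h1.add (log_diff hz.2)).sub (hall z hz.1).2.2.differentiableAt).differentiableWithinAt
  obtain ⟨k, hk⟩ := log_const hr hd (fun z hz => by
    have h1 := (hall z hz.1).1 hz.2
    have h2 := (hall z hz.1).2.1
    have h3 := im_neg_ne hz.2
    have h4 : Y z ≠ 0 := by
      intro h5
      rw [h5, zero_mul] at h1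
      exact Complex.exp_ne_zero _ h1
    rw [Complex.exp_sub, Complex.exp_add, h1, exp_log_I h3, ← h2]
    have := I_ne_zero
    field_simp)
  refine ⟨b, fun z => y z + k * (2 * Real.pi * I), hb, hy.add analyticAt_const, ?_⟩
  filter_upwards [ball_mem_nhds _ hr] with z hz him
  have := hk z ⟨hz, him⟩
  linear_combination this

/-- The data for the argument. -/
structure PhDec (L : ℂ → ℂ) (ph : ℝ → ℝ) (a : ℕ → ℂ) (D : ℝ) (M C : ℂ → ℂ) : Prop where
  D0 : 0 ≤ D
  ha : ∀ p, ‖a p‖ ≤ D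
  hM : AnalyticAt ℂ M 0
  hM0 : M 0 ≠ 0
  hC : AnalyticAt ℂ C 0
  eqL : ∀ᶠ ζ : ℂ in 𝓝 0, ζ.im < 0 → L ζ = M ζ * Complex.exp (C ζ + gg a ζ)
  eqph : NearR 0 fun τ => ph τ = (C τ).im + (bv a τ).im

/-- The imaginary part of the boundary values. -/
lemma bv_im_of_eq {b : ℕ → ℂ} {D : ℝ} (hD : 0 ≤ D) (hb : ∀ p, ‖b p‖ ≤ D) {y : ℂ → ℂ}
    (hy : AnalyticAt ℂ y 0) (m : ℝ)
    (hev : ∀ᶠ ζ : ℂ in 𝓝 0, ζ.im < 0 → gg b ζ = y ζ + m * Complex.log (I * ζ)) :
    NearR 0 fun τ => (bv b τ).im = (y τ).im + m * (Real.pi / 2 * Real.sign τ) := by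
  have h1 : NearR 0 fun τ => AnalyticAt ℂ y τ :=
    NearR.of_nhds (by simpa using hy.eventually_analyticAt)
  have h2 : NearR 0 fun τ => ∀ᶠ ζ : ℂ in 𝓝 (τ : ℂ), ζ.im < 0 →
      gg b ζ = y ζ + m * Complex.log (I * ζ) :=
    NearR.of_nhds (P := fun z : ℂ => ∀ᶠ ζ : ℂ in 𝓝 z, ζ.im < 0 →
      gg b ζ = y ζ + m * Complex.log (I * ζ)) (by
        rw [Complex.ofReal_zero]
        exact hev.eventually_nhds)
  refine ((h1.and h2).and (NearR.ne.and (NearR.of_ae (bv_ae hb)))).mono ?_
  rintro τ ⟨⟨h3, h4⟩, h5, h6⟩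
  have h7 := bv_radial hD hb h6
  have h8 := (Complex.continuous_im.tendsto _).comp h7
  have h9 : Tendsto (fun ε : ℝ => (y (τ - I * ε)).im +
      m * (Complex.log (I * (τ - I * ε))).im) (𝓝[>] 0)
      (𝓝 ((y τ).im + m * (Real.pi / 2 * Real.sign τ))) := by
    refine Tendsto.add ?_ ((log_bdry h5).const_mul m)
    exact (Complex.continuous_im.tendsto _).comp (h3.continuousAt.tendsto.comp (tendsto_below τ))
  refine tendsto_nhds_unique h8 (h9.congr' ?_)
  filter_upwards [(tendsto_below τ).eventually h4, self_mem_nhdsWithin] with ε h10 hε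
  have hε' : 0 < ε := hε
  simp only [Function.comp_apply]
  rw [h10 (by simpa using hε'), Complex.add_im, Complex.im_ofReal_mul]

lemma gg_const_mul (c : ℂ) (a : ℕ → ℂ) (ζ : ℂ) : gg (fun p => c * a p) ζ = c * gg a ζ := by
  unfold gg
  rw [← tsum_mul_left]
  refine tsum_congr fun n => ?_
  unfold cf
  split_ifs
  · ring
  · ring

lemma bv_const_mul {a : ℕ → ℂ} {D : ℝ} (ha : ∀ p, ‖a p‖ ≤ D) (c : ℂ) :
    ∀ᵐ τ : ℝ, bv (fun p => c * a p) τ = c * bv a τ := by
  filter_upwards [bv_ae ha] with τ h1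
  have h3 := h1.const_mul c
  refine Tendsto.limUnder_eq (h3.congr fun x => ?_)
  unfold ps
  rw [mul_sum]
  refine sum_congr rfl fun p _ => ?_
  unfold term
  split_ifs
  · ring
  · ring

/-- **The local criterion for the argument.** -/
theorem ph_iff {L : ℂ → ℂ} {ph : ℝ → ℝ} {a : ℕ → ℂ} {D : ℝ} {M C : ℂ → ℂ}
    (h : PhDec L ph a D M C) (m : ℤ) :
    (∃ F : ℂ → ℂ, MeromorphicAt F 0 ∧ meromorphicOrderAt F 0 = m ∧
      ∀ᶠ ζ : ℂ in 𝓝 0, ζ.im < 0 → F ζ = L ζ) ↔
    (∃ H : ℂ → ℂ, AnalyticAt ℂ H 0 ∧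
      NearR 0 fun τ => ((ph τ - m * (Real.pi / 2 * Real.sign τ) : ℝ) : ℂ) = H τ) := by
  obtain ⟨μ, hμ, hμe⟩ := exists_log h.hM h.hM0
  constructor
  · rintro ⟨F, hF, hFm, hFL⟩
    obtain ⟨F₀, hF₀, hF₀0, hFe⟩ := (meromorphicOrderAt_eq_int_iff hF).1 hFm
    have hI : (I : ℂ) ^ (-m) ≠ 0 := zpow_ne_zero _ I_ne_zero
    obtain ⟨f, hf, hfe⟩ := exists_log (analyticAt_const.mul hF₀ :
      AnalyticAt ℂ (fun z => I ^ (-m) * F₀ z) 0) (mul_ne_zero hI hF₀0)
    obtain ⟨r, hr, hall⟩ := Metric.eventually_nhds_iff_ball.1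
      (((hμe.and hfe).and (h.eqL.and hFL)).and ((eventually_nhdsWithin_iff.1 hFe).and
        ((hμ.eventually_analyticAt.and hf.eventually_analyticAt).and h.hC.eventually_analyticAt)))
    have hd : DifferentiableOn ℂ
        (fun z => μ z + C z + gg a z - m * Complex.log (I * z) - f z) (lo r) := by
      intro z hz
      have h1 : DifferentiableAt ℂ (gg a) z :=
        (gg_diff h.D0 h.ha).differentiableAt
          ((isOpen_lt continuous_im continuous_const).mem_nhds hz.2)
      obtain ⟨-, -, ⟨h2, h3⟩, h4⟩ := hall z hz.1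
      exact ((((h2.differentiableAt.add h4.differentiableAt).add h1).sub
        ((log_diff hz.2).const_mul _)).sub h3.differentiableAt).differentiableWithinAt
    obtain ⟨k, hk⟩ := log_const hr hd (fun z hz => by
      obtain ⟨⟨⟨e1, e2⟩, e3, e4⟩, e5, -⟩ := hall z hz.1
      have hz0 := im_neg_ne hz.2
      have e6 := e3 hz.2
      have e7 := e4 hz.2
      have e8 := e5 hz0
      rw [sub_zero, smul_eq_mul] at e8
      have e2' : I ^ (-m) * F₀ z = Complex.exp (f z) := e2
      have hIz : I * z ≠ 0 := mul_ne_zero I_ne_zero hz0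
      have e9 : Complex.exp (μ z + C z + gg a z) = (I * z) ^ m * Complex.exp (f z) := by
        rw [add_assoc, Complex.exp_add, ← e1, ← e6, ← e7, e8, ← e2', mul_zpow]
        have : (I : ℂ) ^ m * I ^ (-m) = 1 := by
          rw [← zpow_add₀ I_ne_zero]
          simp
        linear_combination (-(z ^ m * F₀ z)) * this
      rw [Complex.exp_sub, Complex.exp_sub, e9, Complex.exp_int_mul, exp_log_I hz0]
      have h10 : (I * z) ^ m ≠ 0 := zpow_ne_zero _ hIz
      have h11 := Complex.exp_ne_zero (f z)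
      field_simp)
    -- the boundary values
    set y : ℂ → ℂ := fun z => f z - μ z - C z + k * (2 * Real.pi * I) with hy
    have hya : AnalyticAt ℂ y 0 := ((hf.sub hμ).sub h.hC).add analyticAt_const
    have hbv := bv_im_of_eq h.D0 h.ha hya (m : ℝ) (by
      filter_upwards [ball_mem_nhds _ hr] with z hz him
      have := hk z ⟨hz, him⟩
      rw [hy]
      simp only [Complex.ofReal_intCast]
      linear_combination this)
    set q : ℂ → ℂ := fun z => f z - μ z with hq
    have hqa : AnalyticAt ℂ q 0 := hf.sub hμ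
    refine ⟨fun z => (q z - rf q z) / (2 * I) + ((2 * Real.pi * k : ℝ) : ℂ), ?_, ?_⟩
    · refine AnalyticAt.add ?_ analyticAt_const
      refine AnalyticAt.div_const ?_
      exact hqa.sub (rf_analyticAt (by simpa using hqa))
    · refine (hbv.and h.eqph).mono fun τ h1 => ?_
      rw [h1.2, h1.1]
      have h2 : (q τ - rf q τ) / (2 * I) = (((q τ).im : ℝ) : ℂ) := by
        unfold rf
        rw [Complex.conj_ofReal, Complex.sub_conj]
        have := I_ne_zero
        field_simp
        push_cast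
        ring
      show (_ : ℂ) = (q τ - rf q τ) / (2 * I) + ((2 * Real.pi * k : ℝ) : ℂ)
      rw [h2, ← Complex.ofReal_add]
      congr 1
      rw [hy, hq]
      simp only [Complex.add_im, Complex.sub_im]
      have h3 : ((k : ℂ) * (2 * (Real.pi : ℂ) * I)).im = 2 * Real.pi * k := by
        have : (k : ℂ) * (2 * (Real.pi : ℂ) * I) = ((2 * Real.pi * k : ℝ) : ℂ) * I := by
          push_cast
          ring
        rw [this, Complex.im_ofReal_mul, Complex.I_im, mul_one]
      rw [h3]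
      ring
  · rintro ⟨H, hH, hHe⟩
    obtain ⟨b, y, hb, hy, hyb⟩ := piece_log
    have hbb := bv_im_of_eq zero_le_one hb hy (-1 : ℝ) (by
      filter_upwards [hyb] with z hz him
      rw [hz him]
      push_cast
      ring)
    -- the new prime sum
    set a₂ : ℕ → ℂ := fun p => a p + (m : ℂ) * b p with ha₂
    have ha₂b : ∀ p, ‖a₂ p‖ ≤ D + |(m : ℝ)| := by
      intro p
      refine (norm_add_le _ _).trans (add_le_add (h.ha p) ?_)
      rw [norm_mul, Complex.norm_intCast]
      calc |(m : ℝ)| * ‖b p‖ ≤ |(m : ℝ)| * 1 := by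
            have := hb p
            gcongr
        _ = _ := mul_one _
    have hD2 : 0 ≤ D + |(m : ℝ)| := add_nonneg h.D0 (abs_nonneg _)
    set a₃ : ℕ → ℂ := fun p => -I * a₂ p with ha₃
    have ha₃b : ∀ p, ‖a₃ p‖ ≤ D + |(m : ℝ)| := by
      intro p
      rw [ha₃]
      simp only [norm_mul, norm_neg, Complex.norm_I, one_mul]
      exact ha₂b p
    set H₃ : ℂ → ℂ := fun z => H z + I * C z - m * (I * y z) with hH₃
    have hH₃a : AnalyticAt ℂ H₃ 0 :=
      (hH.add (analyticAt_const.mul h.hC)).sub (analyticAt_const.mul (analyticAt_const.mul hy))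
    have hre : NearR 0 fun τ => (bv a₃ τ).re = (H₃ τ).re := by
      refine (((NearR.of_ae (bv_const_mul ha₂b (-I))).and
        (NearR.of_ae (bv_add_mul h.ha hb (m : ℂ)))).and ((hbb.and h.eqph).and hHe)).mono ?_
      rintro τ ⟨⟨e1, e2⟩, ⟨e3, e4⟩, e5⟩
      have e6 : (bv a₃ τ).re = (bv a₂ τ).im := by
        rw [ha₃, e1]
        simp
      have e7 : (bv a₂ τ).im = (bv a τ).im + m * (bv b τ).im := by
        rw [ha₂, e2, Complex.add_im, ← Complex.ofReal_intCast, Complex.im_ofReal_mul]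
      have e8 : (H τ).re = ph τ - m * (Real.pi / 2 * Real.sign τ) := by
        rw [← e5, Complex.ofReal_re]
      have e9 : (H₃ τ).re = (H τ).re - (C τ).im + m * (y τ).im := by
        rw [hH₃]
        simp only [Complex.add_re, Complex.sub_re]
        rw [← Complex.ofReal_intCast, Complex.re_ofReal_mul, Complex.I_mul_re, Complex.I_mul_re]
        ring
      rw [e6, e7, e9, e8, e3, e4]
      ring
    obtain ⟨r₁, hr₁, hre'⟩ := hre
    obtain ⟨r₂, hr₂, hHd⟩ := Metric.eventually_nhds_iff_ball.1 hH₃a.eventually_analyticAt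
    set r := min 1 (min r₁ r₂) with hr
    have hr0 : 0 < r := lt_min one_pos (lt_min hr₁ hr₂)
    have hc0 : ((0 : ℝ) : ℂ) = 0 := Complex.ofReal_zero
    have hbr : ∀ᵐ τ : ℝ, (τ : ℂ) ∈ ball ((0 : ℝ) : ℂ) r → (bv a₃ τ).re = (H₃ τ).re := by
      filter_upwards [hre'] with τ h1 h2
      refine h1 ?_
      rw [mem_ball, dist_eq_norm, ← Complex.ofReal_sub, Complex.norm_real,
        Real.norm_eq_abs] at h2
      exact h2.trans_le ((min_le_right _ _).trans (min_le_left _ _))
    obtain ⟨G, hG, hGe⟩ := local_ext (a := a₃) hD2 ha₃b (c := 0) (r := r) hr0 (min_le_left _ _)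
      (H := H₃) (fun z hz => (hHd z (by
        rw [hc0] at hz
        exact ball_subset_ball ((min_le_right _ _).trans (min_le_right _ _)) hz)
        ).differentiableAt.differentiableWithinAt) hbr
    rw [hc0] at hG hGe
    have hGa : AnalyticAt ℂ G 0 := hG.analyticAt (ball_mem_nhds _ hr0)
    set F₀ : ℂ → ℂ := fun ζ => I ^ m * (M ζ * Complex.exp (C ζ + I * G ζ - m * y ζ)) with hF₀
    have hF₀a : AnalyticAt ℂ F₀ 0 := by
      refine analyticAt_const.mul (h.hM.mul (AnalyticAt.cexp ?_))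
      exact (h.hC.add (analyticAt_const.mul hGa)).sub (analyticAt_const.mul hy)
    have hF₀0 : F₀ 0 ≠ 0 :=
      mul_ne_zero (zpow_ne_zero _ I_ne_zero) (mul_ne_zero h.hM0 (Complex.exp_ne_zero _))
    have hmer : MeromorphicAt (fun ζ : ℂ => ζ ^ m * F₀ ζ) 0 :=
      ((analyticAt_id.meromorphicAt : MeromorphicAt (fun ζ : ℂ => ζ) 0).zpow m).mul
        hF₀a.meromorphicAt
    refine ⟨fun ζ => ζ ^ m * F₀ ζ, hmer, ?_, ?_⟩
    · rw [meromorphicOrderAt_eq_int_iff hmer]
      exact ⟨F₀, hF₀a, hF₀0, Eventually.of_forall fun ζ => by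
        rw [smul_eq_mul, sub_zero]⟩
    · filter_upwards [ball_mem_nhds (0 : ℂ) hr0, h.eqL, hyb] with ζ h1 h2 h3 him
      have hz0 := im_neg_ne him
      have h4 := hGe ζ h1 him
      rw [ha₃, gg_const_mul, ha₂, gg_add_mul h.D0 h.ha hb _ him, h3 him] at h4
      have h5 : gg a ζ = I * G ζ - m * (y ζ - Complex.log (I * ζ)) := by
        rw [h4]
        linear_combination (gg a ζ + m * (y ζ - Complex.log (I * ζ))) * Complex.I_mul_I
      rw [h2 him, h5, hF₀]
      simp only
      have h6 : C ζ + (I * G ζ - m * (y ζ - Complex.log (I * ζ))) =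
          (C ζ + I * G ζ - m * y ζ) + m * Complex.log (I * ζ) := by ring
      rw [h6, Complex.exp_add _ (m * Complex.log (I * ζ)), Complex.exp_int_mul, exp_log_I hz0,
        mul_zpow]
      ring

end Pool.Agent.R385.PH
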