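import Pool.Agent.R385.PH.Eul

/-!
# The criterion for the pole at `s = 2`
-/

set_option autoImplicit false

namespace Pool.Agent.R385.PH

open Complex Filter Topology MeasureTheory Metric Finset Polynomial NumberField IsDedekindDomain
  Pool.Agent.W350.Edge Pool.Agent.W350.EdgeV Pool.Agent.W350.EdgeNF Pool.Agent.R385.MC
  Pool.Agent.H921R2.TatePole Pool.Agent.TH958.BV

variable {k : Type} [Field k] [NumberField k] {N : ℕ} {B : HeightOneSpectrum (𝓞 k) → ℂ[X]}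

lemma eg_two (ζ : ℂ) : eg 2 ζ = 2 + ζ * I := by
  unfold eg
  push_cast
  ring

lemma eg_two_zero : eg 2 0 = 2 := by rw [eg_two]; simp

lemma ge_two : ge 2 2 = 0 := by
  have := ge_eg 2 0
  rwa [eg_two_zero] at this

lemma exists_P (hB : IsEuler₂ N B) : ∃ P₀ : ℕ, ∀ P, P₀ ≤ P →
    N < P ∧ ∀ v : HeightOneSpectrum (𝓞 k), P ≤ nm v → GoodK 2 N B v := by
  classical
  obtain ⟨h1, -⟩ := hB
  have h2 : {v : HeightOneSpectrum (𝓞 k) | ¬ ∃ α : Fin N → ℂ,
      (∀ j, ‖α j‖ = (Ideal.absNorm v.asIdeal : ℝ)) ∧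
      ∀ z : ℂ, (B v).eval z = ∏ j, (1 - α j * z)}.Finite := h1
  refine ⟨(h2.toFinset.sup fun v => nm v) + N + 1, fun P hP => ⟨by omega, fun v hv => ?_⟩⟩
  by_contra h3
  have h4 : v ∈ h2.toFinset := by
    rw [Set.Finite.mem_toFinset]
    rintro ⟨α, hα, he⟩
    refine h3 ⟨α, fun j => ?_, he⟩
    rw [hα j]
    have : ((2 : ℤ) : ℝ) / 2 = 1 := by norm_num
    rw [this, Real.rpow_one]
    rfl
  have h5 : nm v ≤ h2.toFinset.sup fun v => nm v := Finset.le_sup (f := fun v => nm v) h4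
  omega

lemma argSum_eq {P : ℕ} (hG : ∀ v : HeightOneSpectrum (𝓞 k), P ≤ nm v → GoodK 2 N B v)
    (hP : N < P) (x : ℕ) (τ : ℝ) :
    argSum B P x τ = (∑ v ∈ FV nm (hfin (K := k)) x, ellk 2 N B P v τ).im := by
  classical
  unfold argSum
  have h1 : {v : HeightOneSpectrum (𝓞 k) | P ≤ Ideal.absNorm v.asIdeal ∧
      Ideal.absNorm v.asIdeal < x} =
      ((FV nm (hfin (K := k)) x).filter fun v => P ≤ nm v : Finset _) := by
    ext v
    rw [Finset.coe_filter, Set.mem_ofPred_eq, Set.mem_ofPred_eq, mem_FV]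
    exact and_comm
  rw [h1, finsum_mem_coe_finset, Complex.im_sum, sum_filter]
  refine sum_congr rfl fun v _ => ?_
  split_ifs with h2
  · have h3 := arg_factor hG hP h2 τ
    rw [eg_two] at h3
    exact h3
  · rw [ellk_zero h2]
    simp

lemma phase_ae {P : ℕ} (hG : ∀ v : HeightOneSpectrum (𝓞 k), P ≤ nm v → GoodK 2 N B v)
    (hP : N < P) : ∀ᵐ τ : ℝ,
    phase B P τ = (Ck 2 N B P τ).im + (bv (ak 2 N B P) τ).im ∧
      Tendsto (fun x : ℕ => argSum B P x τ) atTop (𝓝 (phase B P τ)) := by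
  filter_upwards [bv_ae (norm_ak (k := k) (w := 2) (N := N) (B := B) (P := P))] with τ hτ
  have h1 := (Complex.continuous_im.tendsto _).comp (edge_lim hτ)
  have h2 : Tendsto (fun x : ℕ => argSum B P x τ) atTop
      (𝓝 ((Ck 2 N B P τ).im + (bv (ak 2 N B P) τ).im)) := by
    rw [Complex.add_im] at h1
    refine h1.congr fun x => ?_
    rw [argSum_eq hG hP]
    rfl
  have h3 : phase B P τ = (Ck 2 N B P τ).im + (bv (ak 2 N B P) τ).im := h2.limUnder_eq
  refine ⟨h3, ?_⟩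
  rw [h3]
  exact h2

lemma phDec (hB : IsEuler₂ N B) {P : ℕ}
    (hG : ∀ v : HeightOneSpectrum (𝓞 k), P ≤ nm v → GoodK 2 N B v) (hP : N < P) :
    PhDec (fun ζ => LFun₂ B (eg 2 ζ)) (phase B P) (ak 2 N B P) (N * Module.finrank ℚ k)
      (fun ζ => ∏ v ∈ SP k P, factor B v (eg 2 ζ)) (Ck 2 N B P) where
  D0 := by positivity
  ha := norm_ak
  hM := by
    refine Finset.analyticAt_fun_prod _ fun v _ => ?_
    have hq0 : (nm v : ℂ) ≠ 0 := by
      have := hN v
      exact_mod_cast (by omega : nm v ≠ 0)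
    have h1 : Differentiable ℂ fun ζ => (B v).eval ((nm v : ℂ) ^ (-(eg 2 ζ))) := by
      have h2 : Differentiable ℂ fun ζ => (nm v : ℂ) ^ (-(eg 2 ζ)) :=
        Differentiable.const_cpow (eg_diff 2).neg (Or.inl hq0)
      exact (B v).differentiable.comp h2
    refine (h1.analyticAt 0).inv ?_
    rw [eg_two_zero]
    exact hB.2 v
  hM0 := by
    refine prod_ne_zero_iff.2 fun v _ => ?_
    unfold factor
    rw [eg_two_zero]
    exact inv_ne_zero (hB.2 v)
  hC := Ck_analytic (by simp)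
  eqL := Eventually.of_forall fun ζ hζ => (euler_k hG hζ).tprod_eq
  eqph := NearR.of_ae (by
    filter_upwards [phase_ae hG hP] with τ h
    exact h.1)

lemma hasPole_iff (r : ℤ) : HasPole B r ↔
    ∃ F : ℂ → ℂ, MeromorphicAt F 0 ∧ meromorphicOrderAt F 0 = (-r : ℤ) ∧
      ∀ᶠ ζ : ℂ in 𝓝 0, ζ.im < 0 → F ζ = LFun₂ B (eg 2 ζ) := by
  unfold HasPole
  constructor
  · rintro ⟨F, hF, hFm, hFL⟩
    have hF' : MeromorphicAt F (eg 2 0) := by rw [eg_two_zero]; exact hF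
    refine ⟨F ∘ eg 2, hF'.comp_analyticAt (eg_analytic 2 0), ?_, ?_⟩
    · rw [meromorphicOrderAt_comp_of_deriv_ne_zero (eg_analytic 2 0) (deriv_eg 2 0), eg_two_zero]
      exact hFm
    · have h1 : Tendsto (eg 2) (𝓝 0) (𝓝 2) := by
        have := (eg_diff 2).continuous.tendsto 0
        rwa [eg_two_zero] at this
      filter_upwards [h1.eventually hFL] with ζ h2 him
      refine h2 ?_
      rw [eg_re]
      push_cast
      linarith
  · rintro ⟨F, hF, hFm, hFL⟩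
    have hF' : MeromorphicAt F (ge 2 2) := by rw [ge_two]; exact hF
    refine ⟨F ∘ ge 2, hF'.comp_analyticAt (ge_analytic 2 2), ?_, ?_⟩
    · rw [meromorphicOrderAt_comp_of_deriv_ne_zero (ge_analytic 2 2) (deriv_ge 2 2), ge_two]
      exact hFm
    · have h1 : Tendsto (ge 2) (𝓝 2) (𝓝 0) := by
        have := (ge_analytic 2 2).continuousAt.tendsto
        rwa [ge_two] at this
      filter_upwards [h1.eventually hFL] with s h2 hre
      have h3 : (ge 2 s).im < 0 := by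
        rw [ge_im]
        push_cast
        linarith
      rw [Function.comp_apply, h2 h3, eg_ge]

/-- **The criterion for the pole.** -/
theorem main (hB : IsEuler₂ N B) : ∃ P₀ : ℕ, ∀ P : ℕ, P₀ ≤ P →
    (∀ᵐ τ : ℝ, Tendsto (fun x : ℕ => argSum B P x τ) atTop (𝓝 (phase B P τ))) ∧
    ∀ r : ℤ, HasPole B r ↔ ∃ H : ℂ → ℂ, AnalyticAt ℂ H 0 ∧ ∃ δ : ℝ, 0 < δ ∧
      ∀ᵐ τ : ℝ, |τ| < δ → ((phase B P τ + r * (Real.pi / 2) * Real.sign τ : ℝ) : ℂ) = H τ := by
  obtain ⟨P₀, hP₀⟩ := exists_P hB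
  refine ⟨P₀, fun P hP => ⟨?_, fun r => ?_⟩⟩
  · filter_upwards [phase_ae (hP₀ P hP).2 (hP₀ P hP).1] with τ h
    exact h.2
  · rw [hasPole_iff, ph_iff (phDec hB (hP₀ P hP).2 (hP₀ P hP).1) (-r)]
    constructor
    · rintro ⟨H, hH, δ, hδ, h⟩
      refine ⟨H, hH, δ, hδ, ?_⟩
      filter_upwards [h] with τ h1 h2
      rw [← h1 (by simpa using h2)]
      congr 1
      push_cast
      ring
    · rintro ⟨H, hH, δ, hδ, h⟩
      refine ⟨H, hH, δ, hδ, ?_⟩
      filter_upwards [h] with τ h1 h2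
      rw [← h1 (by simpa using h2)]
      congr 1
      push_cast
      ring

end Pool.Agent.R385.PH
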