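import Mathlib

/-!
# The argument of the H² L-function on the edge line: definitions

`X` is a connected smooth projective variety over a number field `k` and `L₂(s) = L₂(s, X)` the
`L`-function of `H²(X)`.  Its Euler product converges absolutely for `Re s > 2`.
-/

set_option autoImplicit false

namespace Pool.Agent.R385.PH

open NumberField IsDedekindDomain Filter Topology Polynomial

variable {k : Type} [Field k] [NumberField k]

/-- The polynomials `B v` are the denominators of the Euler factors of an `L`-function of the type of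
`L₂(s, X)`: for almost all primes `v` of `k` there are complex numbers `α_1, …, α_N` of absolute value
`q_v`, the eigenvalues of the geometric Frobenius, such that `B_v(z) = ∏ (1 - α_j z)`, and no factor
`1 / B_v(q_v^{-s})` has a pole at `s = 2`.  By the theorem of Deligne this holds for `L₂(s, X)`, for
every smooth projective variety `X` over `k`; `N` is the second Betti number of `X`. -/
def IsEuler₂ (N : ℕ) (B : HeightOneSpectrum (𝓞 k) → ℂ[X]) : Prop :=
  (∀ᶠ v in cofinite, ∃ α : Fin N → ℂ, (∀ j, ‖α j‖ = (Ideal.absNorm v.asIdeal : ℝ)) ∧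
    ∀ z : ℂ, (B v).eval z = ∏ j, (1 - α j * z)) ∧
  ∀ v, (B v).eval ((Ideal.absNorm v.asIdeal : ℂ) ^ (-2 : ℂ)) ≠ 0

/-- The Euler factor `1 / B_v(q_v^{-s})`. -/
noncomputable def factor (B : HeightOneSpectrum (𝓞 k) → ℂ[X]) (v : HeightOneSpectrum (𝓞 k))
    (s : ℂ) : ℂ :=
  ((B v).eval ((Ideal.absNorm v.asIdeal : ℂ) ^ (-s)))⁻¹

/-- The Euler product over all primes of `k`. -/
noncomputable def LFun₂ (B : HeightOneSpectrum (𝓞 k) → ℂ[X]) (s : ℂ) : ℂ :=
  ∏' v : HeightOneSpectrum (𝓞 k), factor B v s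

/-- `∑ arg L_v(2 + iτ)`, the sum over the primes `v` with `P ≤ q_v < x`; `arg` has values in
`(-π, π]`. -/
noncomputable def argSum (B : HeightOneSpectrum (𝓞 k) → ℂ[X]) (P x : ℕ) (τ : ℝ) : ℝ :=
  ∑ᶠ v ∈ {v : HeightOneSpectrum (𝓞 k) | P ≤ Ideal.absNorm v.asIdeal ∧
    Ideal.absNorm v.asIdeal < x}, (factor B v (2 + τ * Complex.I)).arg

/-- The argument of the Euler product over the primes with `q_v ≥ P` on the edge line `Re s = 2`:
the limit of `∑_{P ≤ q_v < x} arg L_v(2 + iτ)` as `x → ∞`. -/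
noncomputable def phase (B : HeightOneSpectrum (𝓞 k) → ℂ[X]) (P : ℕ) (τ : ℝ) : ℝ :=
  limUnder atTop fun x : ℕ => argSum B P x τ

/-- `L₂(s)` has a pole of order `r` at `s = 2`: it extends meromorphically to a neighbourhood of
`s = 2` and `(s - 2)^r L₂(s)` is holomorphic and nonzero at `s = 2`. -/
def HasPole (B : HeightOneSpectrum (𝓞 k) → ℂ[X]) (r : ℤ) : Prop :=
  ∃ F : ℂ → ℂ, MeromorphicAt F 2 ∧ meromorphicOrderAt F 2 = (-r : ℤ) ∧
    ∀ᶠ s in 𝓝 (2 : ℂ), 2 < s.re → F s = LFun₂ B s

end Pool.Agent.R385.PH
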