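import Pool.Agent.R385.PH.Fld

/-!
# The Euler product over a number field and its argument on the edge
-/

set_option autoImplicit false

namespace Pool.Agent.R385.PH

open Complex Filter Topology MeasureTheory Metric Finset Polynomial NumberField IsDedekindDomain
  Pool.Agent.W350.Edge Pool.Agent.W350.EdgeV Pool.Agent.W350.EdgeNF Pool.Agent.R385.MC
  Pool.Agent.H921R2.TatePole Pool.Agent.TH958.BV

variable {k : Type} [Field k] [NumberField k] {N : ℕ} {w : ℤ}
  {B : HeightOneSpectrum (𝓞 k) → ℂ[X]} {P : ℕ}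

/-- The first term of the logarithm. -/
noncomputable def fstk (w : ℤ) (N : ℕ) (B : HeightOneSpectrum (𝓞 k) → ℂ[X]) (P : ℕ)
    (v : HeightOneSpectrum (𝓞 k)) (ζ : ℂ) : ℂ :=
  avk w N B P v / nm v * Complex.exp (-(I * ζ) * Real.log (nm v))

/-- The logarithm of the factor. -/
noncomputable def ellk (w : ℤ) (N : ℕ) (B : HeightOneSpectrum (𝓞 k) → ℂ[X]) (P : ℕ)
    (v : HeightOneSpectrum (𝓞 k)) (ζ : ℂ) : ℂ :=
  fstk w N B P v ζ + rvk w N B P v (eg w ζ)

lemma ellk_zero {v : HeightOneSpectrum (𝓞 k)} (h : ¬ P ≤ nm v) (ζ : ℂ) :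
    ellk w N B P v ζ = 0 := by
  unfold ellk fstk avk rvk
  rw [dif_neg fun h1 => h h1.1, dif_neg fun h1 => h h1.1]
  simp

/-- The first term in the other notation. -/
lemma first_term' {q : ℕ} (hq : 2 ≤ q) (A : ℂ) (w : ℤ) (ζ : ℂ) :
    A / (((q : ℝ) ^ ((w : ℝ) / 2) : ℝ) : ℂ) / q * Complex.exp (-(I * ζ) * Real.log q) =
      A * (q : ℂ) ^ (-(eg w ζ)) := by
  have h := first_term hq A (w : ℝ) 0 (I * ζ)
  have h1 : ((((w : ℝ) / 2 + 1 : ℝ) : ℂ) + ((0 : ℝ) : ℂ) * Complex.I + I * ζ) = eg w ζ := by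
    unfold eg
    push_cast
    ring
  rw [h1] at h
  rw [← h]
  simp only [Complex.ofReal_zero, zero_mul, neg_zero, Complex.exp_zero, mul_one]
  ring

lemma ellk_exp (hG : ∀ v : HeightOneSpectrum (𝓞 k), P ≤ nm v → GoodK w N B v)
    {v : HeightOneSpectrum (𝓞 k)} (hv : P ≤ nm v) {ζ : ℂ} (hζ : ζ.im ≤ 0) :
    factor B v (eg w ζ) = Complex.exp (ellk w N B P v ζ) := by
  have h : P ≤ nm v ∧ GoodK w N B v := ⟨hv, hG v hv⟩
  have h1 := h.2.choose_spec
  unfold ellk fstk avk rvk
  rw [dif_pos h, dif_pos h, first_term' (two_le_nm v), ← factor_eq (two_le_nm v) h1.1 (by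
    rw [eg_re]; linarith)]
  unfold factor
  rw [h1.2]
  rfl

lemma norm_ellk (hG : ∀ v : HeightOneSpectrum (𝓞 k), P ≤ nm v → GoodK w N B v)
    {v : HeightOneSpectrum (𝓞 k)} (hv : P ≤ nm v) {ζ : ℂ} (hζ : ζ.im ≤ 0) :
    ‖ellk w N B P v ζ‖ ≤ 3 / 2 * N / nm v := by
  have h : P ≤ nm v ∧ GoodK w N B v := ⟨hv, hG v hv⟩
  have h1 := h.2.choose_spec
  have hre : (w : ℝ) / 2 + 1 ≤ (eg w ζ).re := by rw [eg_re]; linarith
  have h2 : ellk w N B P v ζ = ∑ j, -Complex.log (1 - uj (nm v) h.2.choose j (eg w ζ)) := by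
    unfold ellk fstk avk rvk
    rw [dif_pos h, dif_pos h, first_term' (two_le_nm v)]
    unfold rem uj
    rw [sum_mul, ← sum_add_distrib]
    refine sum_congr rfl fun j _ => ?_
    ring
  rw [h2]
  refine (norm_sum_le_of_le (n := fun _ => 3 / 2 * (1 / (nm v : ℝ))) _ fun j _ => ?_).trans ?_
  · have h3 := norm_uj (two_le_nm v) h1.1 j hre
    have h4 := norm_uj_half (two_le_nm v) h1.1 j hre
    rw [norm_neg, sub_eq_add_neg]
    refine (Complex.norm_log_one_add_half_le_self (by rwa [norm_neg])).trans ?_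
    rw [norm_neg]
    linarith
  · rw [sum_const, card_univ, Fintype.card_fin, nsmul_eq_mul]
    apply le_of_eq
    ring

lemma arg_factor (hG : ∀ v : HeightOneSpectrum (𝓞 k), P ≤ nm v → GoodK w N B v) (hP : N < P)
    {v : HeightOneSpectrum (𝓞 k)} (hv : P ≤ nm v) (τ : ℝ) :
    (factor B v (eg w τ)).arg = (ellk w N B P v τ).im := by
  have him : ((τ : ℂ)).im ≤ 0 := by simp
  rw [ellk_exp hG hv him, ← Complex.log_im, Complex.log_exp]
  all_goals
    have h1 := norm_ellk hG hv him
    have h2 := Complex.abs_im_le_norm (ellk w N B P v τ)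
    have h3 : 3 / 2 * (N : ℝ) / nm v ≤ 3 / 2 := by
      have h4 : (0 : ℝ) < nm v := by exact_mod_cast hN v
      rw [div_le_iff₀ h4]
      have h5 : (N : ℝ) ≤ nm v := by exact_mod_cast (by omega : N ≤ nm v)
      linarith
    have h4 := Real.pi_gt_three
    have h5 := abs_le.1 (h2.trans (h1.trans h3))
  · linarith [h5.1]
  · linarith [h5.2]

lemma fstk_split (v : HeightOneSpectrum (𝓞 k)) (ζ : ℂ) : fstk w N B P v ζ =
    (if (nm v).Prime then fstk w N B P v ζ else 0) + lowk w N B P v ζ := by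
  unfold lowk fstk
  split_ifs <;> simp

lemma grp_fstk (ζ : ℂ) (n : ℕ) :
    grp (N := (nm : HeightOneSpectrum (𝓞 k) → ℕ))
      (fun v => if (nm v).Prime then fstk w N B P v ζ else 0) n =
      cf (ak w N B P) n * Complex.exp (-(I * ζ) * Real.log n) := by
  unfold grp cf ak
  by_cases hp : n.Prime
  · rw [if_pos hp, if_pos hp, div_mul_eq_mul_div]
    unfold grp
    rw [← tsum_mul_right, ← tsum_div_const]
    refine tsum_congr fun v => ?_
    have h3 : nm (v : HeightOneSpectrum (𝓞 k)) = n := v.2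
    have hp' : (nm (v : HeightOneSpectrum (𝓞 k))).Prime := by rw [h3]; exact hp
    beta_reduce
    rw [if_pos hp']
    unfold fstk
    rw [h3]
    ring
  · rw [if_neg hp, zero_mul]
    have : ∀ v : (nm : HeightOneSpectrum (𝓞 k) → ℕ) ⁻¹' {n},
        (if (nm (v : HeightOneSpectrum (𝓞 k))).Prime then fstk w N B P v ζ else 0) = 0 := by
      intro v
      have h3 : nm (v : HeightOneSpectrum (𝓞 k)) = n := v.2
      rw [if_neg (by rw [h3]; exact hp)]
    simp [this]

/-- The sum of the logarithms in the half-plane of absolute convergence. -/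
lemma hasSum_ellk {ζ : ℂ} (hζ : ζ.im < 0) :
    HasSum (fun v => ellk w N B P v ζ) (Ck w N B P ζ + gg (ak w N B P) ζ) := by
  have h1 : HasSum (fun v => rvk w N B P v (eg w ζ) + lowk w N B P v ζ) (Ck w N B P ζ) := by
    unfold Ck
    exact (Summable.of_norm_bounded (summable_domk N) fun v => norm_ck (by linarith) v).hasSum
  have h2 : Summable fun v : HeightOneSpectrum (𝓞 k) =>
      (if (nm v).Prime then fstk w N B P v ζ else 0) := by
    refine Summable.of_norm_bounded
      ((nm_summable (x := 1 + -ζ.im) (by linarith)).mul_left (N : ℝ)) fun v => ?_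
    have hq0 : (0 : ℝ) < nm v := by exact_mod_cast hN v
    split_ifs
    · unfold fstk
      rw [norm_mul, norm_div, Complex.norm_natCast, norm_ker]
      have h3 : Real.exp (ζ.im * Real.log (nm v)) = (nm v : ℝ) ^ ζ.im := by
        rw [Real.rpow_def_of_pos hq0, mul_comm]
      have h4 : (nm v : ℝ) ^ (-(1 + -ζ.im)) = (nm v : ℝ)⁻¹ * (nm v : ℝ) ^ ζ.im := by
        rw [← Real.rpow_neg_one, ← Real.rpow_add hq0]
        congr 1
        ring
      rw [h3, h4]
      calc ‖avk w N B P v‖ / nm v * (nm v : ℝ) ^ ζ.im ≤ N / nm v * (nm v : ℝ) ^ ζ.im := by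
            have := norm_avk (w := w) (N := N) (B := B) (P := P) v
            gcongr
        _ = _ := by ring
    · rw [norm_zero]
      positivity
  have h3 : ∑' v : HeightOneSpectrum (𝓞 k), (if (nm v).Prime then fstk w N B P v ζ else 0) =
      gg (ak w N B P) ζ := by
    have h4 := h2.hasSum.tsum_fiberwise (nm : HeightOneSpectrum (𝓞 k) → ℕ)
    have h5 : (fun c => ∑' b : (nm : HeightOneSpectrum (𝓞 k) → ℕ) ⁻¹' {c},
        (if (nm (b : HeightOneSpectrum (𝓞 k))).Prime then fstk w N B P b ζ else 0)) =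
        fun n => cf (ak w N B P) n * Complex.exp (-(I * ζ) * Real.log n) := by
      funext n
      exact grp_fstk ζ n
    rw [h5] at h4
    unfold gg
    exact h4.tsum_eq.symm
  have h4 := h2.hasSum
  rw [h3] at h4
  refine (h1.add h4).congr_fun fun v => ?_
  unfold ellk
  have := fstk_split (w := w) (N := N) (B := B) (P := P) v ζ
  linear_combination this

/-- The places of small norm. -/
noncomputable def SP (k : Type) [Field k] [NumberField k] (P : ℕ) :
    Finset (HeightOneSpectrum (𝓞 k)) := FV nm (hfin (K := k)) P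

lemma euler_k (hG : ∀ v : HeightOneSpectrum (𝓞 k), P ≤ nm v → GoodK w N B v) {ζ : ℂ}
    (hζ : ζ.im < 0) :
    HasProd (fun v : HeightOneSpectrum (𝓞 k) => factor B v (eg w ζ))
      ((∏ v ∈ SP k P, factor B v (eg w ζ)) *
        Complex.exp (Ck w N B P ζ + gg (ak w N B P) ζ)) := by
  classical
  have h1 : HasProd (fun v => if v ∈ SP k P then factor B v (eg w ζ) else 1)
      (∏ v ∈ SP k P, (if v ∈ SP k P then factor B v (eg w ζ) else 1)) :=
    hasProd_prod_of_ne_finset_one fun v hv => if_neg hv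
  have h2 := h1.mul (hasSum_ellk (w := w) (N := N) (B := B) (P := P) hζ).cexp
  have h3 : ∏ v ∈ SP k P, (if v ∈ SP k P then factor B v (eg w ζ) else 1) =
      ∏ v ∈ SP k P, factor B v (eg w ζ) := prod_congr rfl fun v hv => if_pos hv
  rw [h3] at h2
  refine h2.congr_fun fun v => ?_
  by_cases hv : v ∈ SP k P
  · have h4 : ¬ P ≤ nm v := by
      unfold SP at hv
      rw [mem_FV] at hv
      omega
    simp only [Function.comp_apply]
    rw [if_pos hv, ellk_zero h4, Complex.exp_zero, mul_one]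
  · have h4 : P ≤ nm v := by
      unfold SP at hv
      rw [mem_FV] at hv
      omega
    simp only [Function.comp_apply]
    rw [if_neg hv, one_mul, ellk_exp hG h4 hζ.le]

/-- The sum of the logarithms on the edge. -/
lemma edge_lim {τ : ℝ} (hτ : Tendsto (ps (ak w N B P) τ) atTop (𝓝 (bv (ak w N B P) τ))) :
    Tendsto (fun x : ℕ => ∑ v ∈ FV nm (hfin (K := k)) x, ellk w N B P v τ) atTop
      (𝓝 (Ck w N B P τ + bv (ak w N B P) τ)) := by
  have him : ((τ : ℂ)).im ≤ 1 / 4 := by simp
  have h1 : HasSum (fun v => rvk w N B P v (eg w τ) + lowk w N B P v τ) (Ck w N B P τ) := by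
    unfold Ck
    exact (Summable.of_norm_bounded (summable_domk N) fun v => norm_ck him v).hasSum
  have h2 := h1.comp (tendsto_FV (hfin (K := k)))
  refine (h2.add hτ).congr fun x => ?_
  have h3 : ps (ak w N B P) τ x = ∑ v ∈ FV nm (hfin (K := k)) x,
      (if (nm v).Prime then fstk w N B P v τ else 0) := by
    rw [ps_eq, ← sum_grp hfin]
    refine sum_congr rfl fun n _ => ?_
    exact (grp_fstk (τ : ℂ) n).symm
  simp only [Function.comp_apply]
  rw [h3, ← sum_add_distrib]
  refine sum_congr rfl fun v _ => ?_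
  unfold ellk
  have := fstk_split (w := w) (N := N) (B := B) (P := P) v τ
  linear_combination -this

end Pool.Agent.R385.PH
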