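import Pool.Agent.R385.PH.Loc
import Pool.Agent.R385.PH.Defs
import Pool.Agent.TH958.BV.Main

/-!
# The decomposition of an Euler product over a number field
-/

set_option autoImplicit false

namespace Pool.Agent.R385.PH

open Complex Filter Topology MeasureTheory Metric Finset Polynomial NumberField IsDedekindDomain
  Pool.Agent.W350.Edge Pool.Agent.W350.EdgeV Pool.Agent.W350.EdgeNF Pool.Agent.R385.MC
  Pool.Agent.H921R2.TatePole Pool.Agent.TH958.BV

variable {k : Type} [Field k] [NumberField k] {N : ℕ}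

/-! ### Beyond the edge -/

lemma norm_uj' {q : ℕ} (hq : 2 ≤ q) {α : Fin N → ℂ} {w : ℝ} (hα : ∀ j, ‖α j‖ = (q : ℝ) ^ (w / 2))
    (j : Fin N) {s : ℂ} (hs : w / 2 + 3 / 4 ≤ s.re) :
    ‖uj q α j s‖ ≤ (q : ℝ) ^ (-(3 / 4) : ℝ) := by
  have hq0 : (0 : ℝ) < q := by exact_mod_cast (by omega : 0 < q)
  have hq1 : (1 : ℝ) ≤ q := by exact_mod_cast (by omega : 1 ≤ q)
  unfold uj
  rw [norm_mul, hα, Complex.norm_natCast_cpow_of_pos (by omega), ← Real.rpow_add hq0]
  refine Real.rpow_le_rpow_of_exponent_le hq1 ?_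
  rw [Complex.neg_re]
  linarith

lemma q_le {q : ℕ} (hq : 2 ≤ q) : (q : ℝ) ^ (-(3 / 4) : ℝ) ≤ 3 / 5 := by
  have h1 : (q : ℝ) ^ (-(3 / 4) : ℝ) ≤ (2 : ℝ) ^ (-(3 / 4) : ℝ) :=
    Real.rpow_le_rpow_of_nonpos two_pos (by exact_mod_cast hq) (by norm_num)
  refine h1.trans ?_
  have h2 : ((2 : ℝ) ^ (-(3 / 4) : ℝ)) ^ 4 ≤ (3 / 5 : ℝ) ^ 4 := by
    rw [← Real.rpow_natCast, ← Real.rpow_mul (by norm_num)]
    norm_num
  exact le_of_pow_le_pow_left₀ (by norm_num) (by norm_num) h2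

lemma norm_rem' {q : ℕ} (hq : 2 ≤ q) {α : Fin N → ℂ} {w : ℝ}
    (hα : ∀ j, ‖α j‖ = (q : ℝ) ^ (w / 2)) {s : ℂ} (hs : w / 2 + 3 / 4 ≤ s.re) :
    ‖rem q α s‖ ≤ 2 * N * (q : ℝ) ^ (-(3 / 2) : ℝ) := by
  have hq0 : (0 : ℝ) < q := by exact_mod_cast (by omega : 0 < q)
  unfold rem
  refine (norm_sum_le_of_le (f := fun j => -Complex.log (1 - uj q α j s) - uj q α j s)
    (n := fun _ => 2 * (q : ℝ) ^ (-(3 / 2) : ℝ)) _ fun j _ => ?_).trans ?_
  · have h1 := norm_uj' hq hα j hs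
    have h2 := h1.trans (q_le hq)
    have h3 : ‖-uj q α j s‖ < 1 := by
      rw [norm_neg]
      linarith
    have h4 := Complex.norm_log_one_add_sub_self_le h3
    rw [norm_neg] at h4
    have h5 : -Complex.log (1 - uj q α j s) - uj q α j s =
        -(Complex.log (1 + -uj q α j s) - -uj q α j s) := by
      rw [sub_eq_add_neg (1 : ℂ) (uj q α j s)]
      ring
    rw [h5, norm_neg]
    refine h4.trans ?_
    have h7 : (1 - ‖uj q α j s‖)⁻¹ ≤ 4 := by
      rw [inv_le_comm₀ (by linarith) (by norm_num)]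
      linarith
    have h8 : ‖uj q α j s‖ ^ 2 ≤ ((q : ℝ) ^ (-(3 / 4) : ℝ)) ^ 2 :=
      pow_le_pow_left₀ (norm_nonneg _) h1 2
    have h9 : ((q : ℝ) ^ (-(3 / 4) : ℝ)) ^ 2 = (q : ℝ) ^ (-(3 / 2) : ℝ) := by
      rw [← Real.rpow_natCast, ← Real.rpow_mul hq0.le]
      congr 1
      norm_num
    have h10 : 0 < (1 - ‖uj q α j s‖)⁻¹ := inv_pos.2 (by linarith)
    rw [h9] at h8
    calc ‖uj q α j s‖ ^ 2 * (1 - ‖uj q α j s‖)⁻¹ / 2 ≤ (q : ℝ) ^ (-(3 / 2) : ℝ) * 4 / 2 := by
          have := mul_le_mul h8 h7 h10.le (by positivity)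
          linarith
      _ = _ := by ring
  · rw [sum_const, card_univ, Fintype.card_fin, nsmul_eq_mul]
    ring_nf
    exact le_rfl

lemma diff_rem {q : ℕ} (hq : 2 ≤ q) {α : Fin N → ℂ} {w : ℝ}
    (hα : ∀ j, ‖α j‖ = (q : ℝ) ^ (w / 2)) :
    DifferentiableOn ℂ (rem q α) {s : ℂ | w / 2 + 3 / 4 < s.re} := by
  intro s hs
  have hs' : w / 2 + 3 / 4 ≤ s.re := le_of_lt hs
  have hq0 : (q : ℂ) ≠ 0 := by exact_mod_cast (by omega : q ≠ 0)
  refine DifferentiableAt.differentiableWithinAt ?_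
  unfold rem
  refine DifferentiableAt.fun_sum fun j _ => ?_
  have h1 : DifferentiableAt ℂ (uj q α j) s := by
    unfold uj
    exact (DifferentiableAt.const_cpow (by fun_prop) (Or.inl hq0)).const_mul _
  refine DifferentiableAt.sub ?_ h1
  refine DifferentiableAt.neg ?_
  refine DifferentiableAt.clog ((differentiableAt_const _).sub h1) (Or.inl ?_)
  have h2 := (norm_uj' hq hα j hs').trans (q_le hq)
  have h3 := Complex.re_le_norm (uj q α j s)
  rw [Complex.sub_re, Complex.one_re]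
  linarith

/-! ### The places -/

lemma below_pow_summable : Summable fun v : HeightOneSpectrum (𝓞 k) =>
    ((below v : ℕ) : ℝ) ^ (-(3 / 2) : ℝ) := by
  rw [← (Equiv.sigmaFiberEquiv (below (K := k))).summable_iff]
  rw [summable_sigma_of_nonneg (fun _ => by simp only [Function.comp_apply]; positivity)]
  constructor
  · intro p
    exact Summable.of_finite
  · have h1 : Summable fun p : Nat.Primes => (Module.finrank ℚ k : ℝ) *
        ((p : ℕ) : ℝ) ^ (-(3 / 2) : ℝ) :=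
      (summable_primes_rpow (x := 3 / 2) (by norm_num)).mul_left _
    refine Summable.of_nonneg_of_le (fun p => tsum_nonneg fun _ => by
      simp only [Function.comp_apply]; positivity) (fun p => ?_) h1
    rw [tsum_fintype]
    have h2 : ∀ v : {v : HeightOneSpectrum (𝓞 k) // below v = p},
        ((fun v : HeightOneSpectrum (𝓞 k) => ((below v : ℕ) : ℝ) ^ (-(3 / 2) : ℝ)) ∘
          (Equiv.sigmaFiberEquiv (below (K := k)))) ⟨p, v⟩ = ((p : ℕ) : ℝ) ^ (-(3 / 2) : ℝ) := by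
      intro v
      simp only [Function.comp_apply, Equiv.sigmaFiberEquiv, Equiv.coe_fn_mk]
      rw [v.2]
    rw [Finset.sum_congr rfl fun v _ => h2 v, Finset.sum_const, nsmul_eq_mul]
    refine mul_le_mul_of_nonneg_right ?_ (by positivity)
    have := fiber_card_le (K := k) p
    rw [Finset.card_univ]
    exact_mod_cast this

lemma hlow' : Summable fun v : HeightOneSpectrum (𝓞 k) =>
    if (nm v).Prime then (0 : ℝ) else (nm v : ℝ) ^ (-(3 / 4) : ℝ) := by
  refine Summable.of_nonneg_of_le (fun v => ?_) (fun v => ?_) below_pow_summable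
  · split_ifs <;> positivity
  · split_ifs with h
    · positivity
    · obtain ⟨h1, h2, _⟩ := nm_eq v
      have h3 : 2 ≤ deg v := by
        by_contra h4
        have h5 : deg v = 1 := by omega
        rw [h5, pow_one] at h1
        exact h (by rw [h1]; exact (below v).2)
      have hp : (0 : ℝ) < ((below v : ℕ) : ℝ) := by exact_mod_cast (below v).2.pos
      have h4 : ((below v : ℕ) : ℝ) ^ 2 ≤ nm v := by
        rw [h1]
        have : (below v : ℕ) ^ 2 ≤ (below v : ℕ) ^ deg v := Nat.pow_le_pow_right (below v).2.pos h3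
        exact_mod_cast this
      calc (nm v : ℝ) ^ (-(3 / 4) : ℝ) ≤ (((below v : ℕ) : ℝ) ^ 2) ^ (-(3 / 4) : ℝ) :=
            Real.rpow_le_rpow_of_nonpos (by positivity) h4 (by norm_num)
        _ = ((below v : ℕ) : ℝ) ^ (-(3 / 2) : ℝ) := by
            rw [← Real.rpow_natCast, ← Real.rpow_mul hp.le]
            congr 1
            norm_num

/-- The good primes. -/
def GoodK (w : ℤ) (N : ℕ) (B : HeightOneSpectrum (𝓞 k) → ℂ[X]) (v : HeightOneSpectrum (𝓞 k)) :
    Prop :=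
  ∃ α : Fin N → ℂ, (∀ j, ‖α j‖ = (nm v : ℝ) ^ ((w : ℝ) / 2)) ∧
    ∀ z : ℂ, (B v).eval z = ∏ j, (1 - α j * z)

open Classical in
/-- The normalised traces. -/
noncomputable def avk (w : ℤ) (N : ℕ) (B : HeightOneSpectrum (𝓞 k) → ℂ[X]) (P : ℕ)
    (v : HeightOneSpectrum (𝓞 k)) : ℂ :=
  if h : P ≤ nm v ∧ GoodK w N B v then
    (∑ j, h.2.choose j) / (((nm v : ℝ) ^ ((w : ℝ) / 2) : ℝ) : ℂ) else 0

open Classical in
/-- The remainders of the logarithms. -/
noncomputable def rvk (w : ℤ) (N : ℕ) (B : HeightOneSpectrum (𝓞 k) → ℂ[X]) (P : ℕ)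
    (v : HeightOneSpectrum (𝓞 k)) (s : ℂ) : ℂ :=
  if h : P ≤ nm v ∧ GoodK w N B v then rem (nm v) h.2.choose s else 0

variable {w : ℤ} {B : HeightOneSpectrum (𝓞 k) → ℂ[X]} {P : ℕ}

lemma norm_avk (v : HeightOneSpectrum (𝓞 k)) : ‖avk w N B P v‖ ≤ N := by
  unfold avk
  split_ifs with h
  · have hq0 : (0 : ℝ) < nm v := by exact_mod_cast hN v
    have h0 : 0 < (nm v : ℝ) ^ ((w : ℝ) / 2) := by positivity
    rw [norm_div, Complex.norm_real, Real.norm_of_nonneg h0.le, div_le_iff₀ h0]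
    refine (norm_sum_le_of_le (n := fun _ => (nm v : ℝ) ^ ((w : ℝ) / 2)) _ fun j _ =>
      (h.2.choose_spec.1 j).le).trans ?_
    rw [Finset.sum_const, Finset.card_univ, Fintype.card_fin, nsmul_eq_mul]
  · simp

/-- The prime part of the sum. -/
noncomputable def ak (w : ℤ) (N : ℕ) (B : HeightOneSpectrum (𝓞 k) → ℂ[X]) (P n : ℕ) : ℂ :=
  if n.Prime then grp (N := (nm : HeightOneSpectrum (𝓞 k) → ℕ)) (avk w N B P) n else 0

lemma norm_ak (n : ℕ) : ‖ak w N B P n‖ ≤ N * Module.finrank ℚ k := by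
  unfold ak
  split_ifs with hp
  · have hfi : Finite (𝓞 k →+* ZMod n) := hom_finite ⟨n, hp⟩
    have := Fintype.ofFinite (𝓞 k →+* ZMod n)
    unfold grp
    rw [← (homEquiv (K := k) n hp).tsum_eq, tsum_fintype]
    refine (norm_sum_le_of_le (n := fun _ => (N : ℝ)) _ fun φ _ => norm_avk _).trans ?_
    rw [Finset.sum_const, nsmul_eq_mul, mul_comm]
    refine mul_le_mul_of_nonneg_left ?_ (Nat.cast_nonneg _)
    have h2 : Nat.card (𝓞 k →+* ZMod n) ≤ Module.finrank ℚ k :=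
      (R_eq_hc (K := k) ⟨n, hp⟩).symm.le.trans (R_le (K := k) ⟨n, hp⟩)
    rw [Nat.card_eq_fintype_card] at h2
    rw [Finset.card_univ]
    exact_mod_cast h2
  · rw [norm_zero]
    positivity

/-- The contribution of a prime of non-prime norm. -/
noncomputable def lowk (w : ℤ) (N : ℕ) (B : HeightOneSpectrum (𝓞 k) → ℂ[X]) (P : ℕ)
    (v : HeightOneSpectrum (𝓞 k)) (ζ : ℂ) : ℂ :=
  if (nm v).Prime then 0 else avk w N B P v / nm v * Complex.exp (-(I * ζ) * Real.log (nm v))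

/-- The analytic part. -/
noncomputable def Ck (w : ℤ) (N : ℕ) (B : HeightOneSpectrum (𝓞 k) → ℂ[X]) (P : ℕ) (ζ : ℂ) : ℂ :=
  ∑' v : HeightOneSpectrum (𝓞 k), (rvk w N B P v (eg w ζ) + lowk w N B P v ζ)

lemma norm_rvk {s : ℂ} (hs : (w : ℝ) / 2 + 3 / 4 ≤ s.re) (v : HeightOneSpectrum (𝓞 k)) :
    ‖rvk w N B P v s‖ ≤ 2 * N * (nm v : ℝ) ^ (-(3 / 2) : ℝ) := by
  unfold rvk
  split_ifs with h
  · exact norm_rem' (two_le_nm v) h.2.choose_spec.1 hs
  · rw [norm_zero]
    positivity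

lemma norm_lowk {ζ : ℂ} (hζ : ζ.im ≤ 1 / 4) (v : HeightOneSpectrum (𝓞 k)) :
    ‖lowk w N B P v ζ‖ ≤ N * (if (nm v).Prime then (0 : ℝ) else (nm v : ℝ) ^ (-(3 / 4) : ℝ)) := by
  unfold lowk
  split_ifs with h
  · simp
  · have hq0 : (0 : ℝ) < nm v := by exact_mod_cast hN v
    rw [norm_mul, norm_div, Complex.norm_natCast, norm_ker]
    have h1 : Real.exp (ζ.im * Real.log (nm v)) ≤ (nm v : ℝ) ^ (1 / 4 : ℝ) := by
      rw [Real.rpow_def_of_pos hq0]
      refine Real.exp_le_exp.2 ?_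
      rw [mul_comm]
      exact mul_le_mul_of_nonneg_left hζ (Real.log_natCast_nonneg _)
    calc ‖avk w N B P v‖ / nm v * Real.exp (ζ.im * Real.log (nm v))
        ≤ N / nm v * (nm v : ℝ) ^ (1 / 4 : ℝ) := by
          have := norm_avk (w := w) (N := N) (B := B) (P := P) v
          gcongr
      _ = N * (nm v : ℝ) ^ (-(3 / 4) : ℝ) := by
          have : (nm v : ℝ) ^ (-(3 / 4) : ℝ) = (nm v : ℝ)⁻¹ * (nm v : ℝ) ^ (1 / 4 : ℝ) := by
            rw [← Real.rpow_neg_one, ← Real.rpow_add hq0]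
            congr 1
            norm_num
          rw [this]
          ring

/-- The dominating series. -/
noncomputable def domk (N : ℕ) (v : HeightOneSpectrum (𝓞 k)) : ℝ :=
  2 * N * (nm v : ℝ) ^ (-(3 / 2) : ℝ) +
    N * (if (nm v).Prime then (0 : ℝ) else (nm v : ℝ) ^ (-(3 / 4) : ℝ))

lemma summable_domk (N : ℕ) : Summable (domk (k := k) N) :=
  ((nm_summable (x := 3 / 2) (by norm_num)).mul_left _).add (hlow'.mul_left _)

lemma norm_ck {ζ : ℂ} (hζ : ζ.im ≤ 1 / 4) (v : HeightOneSpectrum (𝓞 k)) :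
    ‖rvk w N B P v (eg w ζ) + lowk w N B P v ζ‖ ≤ domk N v := by
  refine (norm_add_le _ _).trans (add_le_add (norm_rvk ?_ v) (norm_lowk hζ v))
  rw [eg_re]
  linarith

lemma Ck_diff : DifferentiableOn ℂ (Ck w N B P) {ζ : ℂ | ζ.im < 1 / 4} := by
  have hopen : IsOpen {ζ : ℂ | ζ.im < 1 / 4} := isOpen_lt continuous_im continuous_const
  unfold Ck
  refine differentiableOn_tsum_of_summable_norm (summable_domk N) ?_ hopen ?_
  · intro v
    refine DifferentiableOn.add ?_ ?_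
    · unfold rvk
      by_cases h : P ≤ nm v ∧ GoodK w N B v
      · simp only [dif_pos h]
        refine (diff_rem (two_le_nm v) h.2.choose_spec.1).comp (eg_diff w).differentiableOn ?_
        intro ζ hζ
        show (w : ℝ) / 2 + 3 / 4 < (eg w ζ).re
        rw [eg_re]
        have : ζ.im < 1 / 4 := hζ
        linarith
      · simp only [dif_neg h]
        exact differentiableOn_const _
    · unfold lowk
      by_cases h : (nm v).Prime
      · simp only [if_pos h]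
        exact differentiableOn_const _
      · simp only [if_neg h]
        fun_prop
  · intro v ζ hζ
    exact norm_ck (le_of_lt hζ) v

lemma Ck_analytic {ζ : ℂ} (hζ : ζ.im ≤ 0) : AnalyticAt ℂ (Ck w N B P) ζ :=
  Ck_diff.analyticAt ((isOpen_lt continuous_im continuous_const).mem_nhds (by
    show ζ.im < 1 / 4
    linarith))

end Pool.Agent.R385.PH
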